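import Pool.Agent.Y45.PV.Stm

/-!
# Laws imply quasi-identities (job PV6 of helper45)
-/

set_option autoImplicit false

namespace Pool.Agent.Y907.PV

open Pool.Agent.Y45.PV

/-- what commutes with all generators commutes with all values of words -/
theorem comm_lift {G : Type*} [Group G] {α : Type*} (f : α → G) (x : G)
    (h : ∀ i, x * f i = f i * x) (w : FreeGroup α) :
    x * FreeGroup.lift f w = FreeGroup.lift f w * x := by
  refine FreeGroup.induction_on w ?_ ?_ ?_ ?_
  · simp
  · intro i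
    simpa using h i
  · intro i hi
    rw [map_inv]
    exact (Commute.inv_right (show Commute x _ from hi)).eq
  · intro a b ha hb
    rw [map_mul, ← mul_assoc, ha, mul_assoc, hb, mul_assoc]

theorem comm_lift_lift {G : Type*} [Group G] {α : Type*} (f : α → G)
    (h : ∀ i j, f i * f j = f j * f i) (v w : FreeGroup α) :
    FreeGroup.lift f v * FreeGroup.lift f w = FreeGroup.lift f w * FreeGroup.lift f v := by
  apply comm_lift
  intro i
  exact (comm_lift f (f i) (h i) v).symm

/-- the centralizer of a noncommuting pair is trivial -/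
theorem eq_one_of_comm {p q : ℕ} {pw : FreeGroup (Fin 3)} (hF : Frm pw) {G : Type} [Group G]
    (hG : PiG p q pw G) {c x y : G} (hx : c * x = x * c) (hy : c * y = y * c)
    (hxy : x * y ≠ y * x) : c = 1 := by
  have key : ∀ w : FreeGroup (Fin 3), FreeGroup.lift ![c, x, y] w =
      FreeGroup.lift ![c, 1, 1] w * FreeGroup.lift ![1, x, y] w := by
    have h1 : ∀ v : FreeGroup (Fin 3),
        c * FreeGroup.lift ![1, x, y] v = FreeGroup.lift ![1, x, y] v * c := by
      intro v
      apply comm_lift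
      intro i
      fin_cases i
      · simp
      · simpa using hx
      · simpa using hy
    have h2 : ∀ v w : FreeGroup (Fin 3),
        FreeGroup.lift ![1, x, y] v * FreeGroup.lift ![c, 1, 1] w =
        FreeGroup.lift ![c, 1, 1] w * FreeGroup.lift ![1, x, y] v := by
      intro v w
      apply comm_lift
      intro i
      fin_cases i
      · simpa using (h1 v).symm
      · simp
      · simp
    intro w
    refine FreeGroup.induction_on w ?_ ?_ ?_ ?_
    · simp
    · intro i
      fin_cases i <;> simp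
    · intro i _
      fin_cases i <;> simp
    · intro a b ha hb
      rw [map_mul, map_mul, map_mul, ha, hb]
      calc FreeGroup.lift ![c, 1, 1] a * FreeGroup.lift ![1, x, y] a *
            (FreeGroup.lift ![c, 1, 1] b * FreeGroup.lift ![1, x, y] b)
          = FreeGroup.lift ![c, 1, 1] a * (FreeGroup.lift ![1, x, y] a *
            FreeGroup.lift ![c, 1, 1] b) * FreeGroup.lift ![1, x, y] b := by
            simp only [mul_assoc]
        _ = _ := by rw [h2]; simp only [mul_assoc]
  have h := key pw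
  rw [hG.pr c x y hxy, hG.pr 1 x y hxy, hF G c 1 1 (by simp), mul_one] at h
  exact h.symm

theorem exists_emb {G : Type} [Group G] {p : ℕ} (g : G) (hg : orderOf g = p) :
    ∃ ψ : Multiplicative (ZMod p) →* G, Function.Injective ψ := by
  have h0 : zmultiplesHom (Additive G) (Additive.ofMul g) (p : ℤ) = 0 := by
    have h1 : g ^ p = 1 := by rw [← hg]; exact pow_orderOf_eq_one g
    have h2 : (Additive.ofMul (g ^ p)) = 0 := by rw [h1]; rfl
    simpa using h2
  have hinj : Function.Injective (ZMod.lift p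
      ⟨zmultiplesHom (Additive G) (Additive.ofMul g), h0⟩) := by
    rw [ZMod.lift_injective]
    intro m hm
    rw [ZMod.intCast_zmod_eq_zero_iff_dvd, ← hg, orderOf_dvd_iff_zpow_eq_one]
    have h2 : Additive.ofMul (g ^ m) = 0 := by simpa using hm
    exact Additive.ofMul.injective h2
  refine ⟨MonoidHom.mk' (fun z => Additive.toMul (ZMod.lift p
      ⟨zmultiplesHom (Additive G) (Additive.ofMul g), h0⟩ (Multiplicative.toAdd z))) ?_, ?_⟩
  · intro a b
    rw [toAdd_mul, map_add, toMul_add]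
  · intro a b hab
    exact Multiplicative.toAdd.injective (hinj (Additive.toMul.injective hab))

/-- commutative groups of exponent `p * q` are separated by homomorphisms to a `PiG` -/
theorem exists_hom (hAb : AbStmt) {p q : ℕ} (hp : p.Prime) (hq : q.Prime) (hpq : p ≠ q)
    {pw : FreeGroup (Fin 3)} {G : Type} [Group G] (hG : PiG p q pw G) (B : Type) [CommGroup B]
    (hB : ∀ b : B, b ^ (p * q) = 1) (b : B) (hb : b ≠ 1) : ∃ χ : B →* G, χ b ≠ 1 := by
  rcases hAb p q hp hq hpq B hB b hb with ⟨φ, hφ⟩ | ⟨φ, hφ⟩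
  · obtain ⟨g, hg⟩ := hG.op
    obtain ⟨ψ, hψ⟩ := exists_emb g hg
    refine ⟨ψ.comp φ, fun h => hφ ?_⟩
    apply hψ
    rw [map_one]
    exact h
  · obtain ⟨g, hg⟩ := hG.oq
    obtain ⟨ψ, hψ⟩ := exists_emb g hg
    refine ⟨ψ.comp φ, fun h => hφ ?_⟩
    apply hψ
    rw [map_one]
    exact h

/-- the words which vanish on all commuting tuples in groups of exponent `n` -/
def Kab (n : ℕ) : Subgroup (FreeGroup ℕ) where
  carrier := {w | ∀ (G : Type) [Group G], (∀ g : G, g ^ n = 1) → ∀ f : ℕ → G,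
    (∀ i j, f i * f j = f j * f i) → FreeGroup.lift f w = 1}
  mul_mem' := by
    intro a b ha hb G _ hG f hf
    rw [map_mul, ha G hG f hf, hb G hG f hf, mul_one]
  one_mem' := by
    intro G _ _ f _
    exact map_one _
  inv_mem' := by
    intro a ha G _ hG f hf
    rw [map_inv, ha G hG f hf, inv_one]

theorem mem_Kab {n : ℕ} {w : FreeGroup ℕ} : w ∈ Kab n ↔
    ∀ (G : Type) [Group G], (∀ g : G, g ^ n = 1) → ∀ f : ℕ → G,
    (∀ i j, f i * f j = f j * f i) → FreeGroup.lift f w = 1 := Iff.rfl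

instance Kab_normal (n : ℕ) : (Kab n).Normal := by
  constructor
  intro w hw g G _ hG f hf
  rw [map_mul, map_mul, hw G hG f hf, map_inv]
  simp

theorem commutator_mem (n : ℕ) (a b : FreeGroup ℕ) : a * b * a⁻¹ * b⁻¹ ∈ Kab n := by
  intro G _ hG f hf
  rw [map_mul, map_mul, map_mul, comm_lift_lift f hf a b, map_inv, map_inv]
  group

theorem pow_mem_Kab (n : ℕ) (a : FreeGroup ℕ) : a ^ n ∈ Kab n := by
  intro G _ hG f hf
  rw [map_pow]
  exact hG _

/-- the decomposition of the conclusion -/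
theorem exists_decomp (hAb : AbStmt) {p q : ℕ} (hp : p.Prime) (hq : q.Prime) (hpq : p ≠ q)
    {pw : FreeGroup (Fin 3)} {G : Type} [Group G] (hG : PiG p q pw G) {s : QI}
    (hs : s ∈ Thq G) : ∃ k ∈ Kab (p * q), ∃ s0 ∈ Subgroup.closure {u | u ∈ s.1},
      s.2 = k * s0 := by
  set C := Subgroup.closure {u | u ∈ s.1} with hC
  have hle : Kab (p * q) ≤ Kab (p * q) ⊔ C := le_sup_left
  have hN : (Kab (p * q) ⊔ C).Normal := by
    constructor
    intro n hn g
    have : g * n * g⁻¹ = (g * n * g⁻¹ * n⁻¹) * n := by group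
    rw [this]
    exact mul_mem (hle (commutator_mem _ g n)) hn
  have hmem : s.2 ∈ Kab (p * q) ⊔ C := by
    by_contra hcon
    let _ : CommGroup (FreeGroup ℕ ⧸ (Kab (p * q) ⊔ C)) :=
      { (inferInstance : Group (FreeGroup ℕ ⧸ (Kab (p * q) ⊔ C))) with
        mul_comm := by
          intro a b
          obtain ⟨a, rfl⟩ := QuotientGroup.mk_surjective a
          obtain ⟨b, rfl⟩ := QuotientGroup.mk_surjective b
          have h1 : ((a * b : FreeGroup ℕ) : FreeGroup ℕ ⧸ (Kab (p * q) ⊔ C)) =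
              ((b * a : FreeGroup ℕ) : FreeGroup ℕ ⧸ (Kab (p * q) ⊔ C)) := by
            rw [QuotientGroup.eq]
            have h2 : (a * b)⁻¹ * (b * a) = b⁻¹ * a⁻¹ * (b⁻¹)⁻¹ * (a⁻¹)⁻¹ := by group
            rw [h2]
            exact hle (commutator_mem _ _ _)
          exact h1 }
    have hexp : ∀ b : FreeGroup ℕ ⧸ (Kab (p * q) ⊔ C), b ^ (p * q) = 1 := by
      intro b
      obtain ⟨b, rfl⟩ := QuotientGroup.mk_surjective b
      have h1 : ((b ^ (p * q) : FreeGroup ℕ) : FreeGroup ℕ ⧸ (Kab (p * q) ⊔ C)) = 1 := by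
        rw [QuotientGroup.eq_one_iff]
        exact hle (pow_mem_Kab _ b)
      exact h1
    have hne : ((s.2 : FreeGroup ℕ) : FreeGroup ℕ ⧸ (Kab (p * q) ⊔ C)) ≠ 1 := by
      intro h
      exact hcon ((QuotientGroup.eq_one_iff _).1 h)
    obtain ⟨χ, hχ⟩ := exists_hom hAb hp hq hpq hG _ hexp _ hne
    have hl : ∀ w : FreeGroup ℕ, FreeGroup.lift
        (fun i => χ ((FreeGroup.of i : FreeGroup ℕ) : FreeGroup ℕ ⧸ (Kab (p * q) ⊔ C))) w =
        χ ((w : FreeGroup ℕ) : FreeGroup ℕ ⧸ (Kab (p * q) ⊔ C)) := by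
      intro w
      have : FreeGroup.lift
        (fun i => χ ((FreeGroup.of i : FreeGroup ℕ) : FreeGroup ℕ ⧸ (Kab (p * q) ⊔ C))) =
        χ.comp (QuotientGroup.mk' (Kab (p * q) ⊔ C)) := by
        ext i
        simp
      exact DFunLike.congr_fun this w
    apply hχ
    rw [← hl]
    apply hs
    intro u hu
    rw [hl]
    have h1 : ((u : FreeGroup ℕ) : FreeGroup ℕ ⧸ (Kab (p * q) ⊔ C)) = 1 := by
      rw [QuotientGroup.eq_one_iff]
      exact (le_sup_right : C ≤ _) (Subgroup.subset_closure hu)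
    rw [h1, map_one]
  have h1 : s.2 ∈ ((Kab (p * q) ⊔ C : Subgroup (FreeGroup ℕ)) : Set (FreeGroup ℕ)) := hmem
  rw [Subgroup.normal_mul] at h1
  obtain ⟨k, hk, s0, hs0, h⟩ := Set.mem_mul.1 h1
  exact ⟨k, hk, s0, hs0, h.symm⟩

/-- a word depends on finitely many letters -/
theorem exists_bound (w : FreeGroup ℕ) : ∃ n : ℕ, ∀ (G : Type) [Group G] (f g : ℕ → G),
    (∀ i < n, f i = g i) → FreeGroup.lift f w = FreeGroup.lift g w := by
  refine FreeGroup.induction_on w ?_ ?_ ?_ ?_
  · exact ⟨0, fun G _ f g _ => by simp⟩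
  · intro i
    exact ⟨i + 1, fun G _ f g h => by simpa using h i (Nat.lt_succ_self i)⟩
  · intro i _
    exact ⟨i + 1, fun G _ f g h => by simpa using h i (Nat.lt_succ_self i)⟩
  · rintro a b ⟨n, hn⟩ ⟨m, hm⟩
    refine ⟨max n m, fun G _ f g h => ?_⟩
    rw [map_mul, map_mul, hn G f g fun i hi => h i (lt_max_of_lt_left hi),
      hm G f g fun i hi => h i (lt_max_of_lt_right hi)]

theorem exists_bound_list (L : List (FreeGroup ℕ)) : ∃ n : ℕ, ∀ w ∈ L,
    ∀ (G : Type) [Group G] (f g : ℕ → G),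
    (∀ i < n, f i = g i) → FreeGroup.lift f w = FreeGroup.lift g w := by
  induction L with
  | nil => exact ⟨0, by simp⟩
  | cons a L ih =>
    obtain ⟨n, hn⟩ := exists_bound a
    obtain ⟨m, hm⟩ := ih
    refine ⟨max n m, ?_⟩
    intro w hw G _ f g h
    rcases List.mem_cons.1 hw with rfl | hw
    · exact hn G f g fun i hi => h i (lt_max_of_lt_left hi)
    · exact hm w hw G f g fun i hi => h i (lt_max_of_lt_right hi)

/-- the iterated word -/
def lam (pw : FreeGroup (Fin 3)) (L : List (FreeGroup ℕ × ℕ)) (a : FreeGroup ℕ) : FreeGroup ℕ :=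
  L.foldl (fun a z => FreeGroup.lift ![a, z.1, FreeGroup.of z.2] pw) a

theorem lam_nil (pw : FreeGroup (Fin 3)) (a : FreeGroup ℕ) : lam pw [] a = a := rfl

theorem lam_cons (pw : FreeGroup (Fin 3)) (z : FreeGroup ℕ × ℕ) (L : List (FreeGroup ℕ × ℕ))
    (a : FreeGroup ℕ) :
    lam pw (z :: L) a = lam pw L (FreeGroup.lift ![a, z.1, FreeGroup.of z.2] pw) := rfl

theorem lift_step {G : Type} [Group G] (pw : FreeGroup (Fin 3)) (f : ℕ → G) (a u : FreeGroup ℕ)
    (i : ℕ) : FreeGroup.lift f (FreeGroup.lift ![a, u, FreeGroup.of i] pw) =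
      FreeGroup.lift ![FreeGroup.lift f a, FreeGroup.lift f u, f i] pw := by
  have : (FreeGroup.lift f).comp (FreeGroup.lift ![a, u, FreeGroup.of i]) =
      FreeGroup.lift ![FreeGroup.lift f a, FreeGroup.lift f u, f i] := by
    ext j
    fin_cases j <;> simp
  exact DFunLike.congr_fun this pw

/-- once the value is one it stays one -/
theorem lift_lam_one {p q : ℕ} {pw : FreeGroup (Fin 3)} (hF : Frm pw) {G : Type} [Group G]
    (hG : PiG p q pw G) (f : ℕ → G) (L : List (FreeGroup ℕ × ℕ)) (a : FreeGroup ℕ)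
    (ha : FreeGroup.lift f a = 1) : FreeGroup.lift f (lam pw L a) = 1 := by
  induction L generalizing a with
  | nil => simpa [lam_nil] using ha
  | cons z L ih =>
    rw [lam_cons]
    apply ih
    rw [lift_step, ha]
    by_cases h : FreeGroup.lift f z.1 * f z.2 = f z.2 * FreeGroup.lift f z.1
    · exact hF G _ _ _ h
    · exact hG.pr _ _ _ h

theorem lift_lam_of_not_comm {p q : ℕ} {pw : FreeGroup (Fin 3)} (hF : Frm pw) {G : Type}
    [Group G] (hG : PiG p q pw G) (f : ℕ → G) (L : List (FreeGroup ℕ × ℕ)) (a : FreeGroup ℕ)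
    (hL : ∃ z ∈ L, FreeGroup.lift f z.1 * f z.2 ≠ f z.2 * FreeGroup.lift f z.1) :
    FreeGroup.lift f (lam pw L a) = 1 := by
  induction L generalizing a with
  | nil => simp at hL
  | cons z L ih =>
    rw [lam_cons]
    by_cases h : FreeGroup.lift f z.1 * f z.2 = f z.2 * FreeGroup.lift f z.1
    · apply ih
      obtain ⟨z', hz', hne⟩ := hL
      rcases List.mem_cons.1 hz' with rfl | hz'
      · exact absurd h hne
      · exact ⟨z', hz', hne⟩
    · apply lift_lam_one hF hG
      rw [lift_step]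
      exact hG.pr _ _ _ h

theorem lift_lam_of_one {pw : FreeGroup (Fin 3)} (hF : Frm pw) {H : Type} [Group H]
    (f : ℕ → H) (L : List (FreeGroup ℕ × ℕ)) (a : FreeGroup ℕ)
    (hL : ∀ z ∈ L, FreeGroup.lift f z.1 = 1) :
    FreeGroup.lift f (lam pw L a) = FreeGroup.lift f a := by
  induction L generalizing a with
  | nil => rfl
  | cons z L ih =>
    rw [lam_cons, ih _ fun z' hz' => hL z' (List.mem_cons_of_mem _ hz'), lift_step,
      hL z List.mem_cons_self]
    exact hF H _ _ _ (by simp)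

theorem lift_closure_eq_one {G : Type} [Group G] (us : List (FreeGroup ℕ)) (f : ℕ → G)
    (h : ∀ u ∈ us, FreeGroup.lift f u = 1) {w : FreeGroup ℕ}
    (hw : w ∈ Subgroup.closure {u | u ∈ us}) : FreeGroup.lift f w = 1 := by
  have : Subgroup.closure {u | u ∈ us} ≤ (FreeGroup.lift f).ker := by
    rw [Subgroup.closure_le]
    intro u hu
    exact h u hu
  exact this hw

/-- PV6 -/
theorem law (hAb : AbStmt) : LawStmt := by
  intro p q pw hp hq hpq hF G _ hG s hs H _ hH f hf
  obtain ⟨k, hk, s0, hs0, hdec⟩ := exists_decomp hAb hp hq hpq hG hs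
  obtain ⟨n, hn⟩ := exists_bound k
  set L : List (FreeGroup ℕ × ℕ) := s.1 ×ˢ List.range n with hL
  have hLmem : ∀ u i, (u, i) ∈ L ↔ u ∈ s.1 ∧ i < n := by
    intro u i
    rw [hL, List.mem_product, List.mem_range]
  have hlaw : lam pw L k ∈ Idt G := by
    intro g
    by_cases hc : ∃ z ∈ L, FreeGroup.lift g z.1 * g z.2 ≠ g z.2 * FreeGroup.lift g z.1
    · exact lift_lam_of_not_comm hF hG g L k hc
    · apply lift_lam_one hF hG
      have hc' : ∀ u ∈ s.1, ∀ i < n,
          FreeGroup.lift g u * g i = g i * FreeGroup.lift g u := by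
        intro u hu i hi
        by_contra hne
        exact hc ⟨(u, i), (hLmem u i).2 ⟨hu, hi⟩, hne⟩
      by_cases hcc : ∀ i < n, ∀ j < n, g i * g j = g j * g i
      · rw [hn G g (fun i => if i < n then g i else 1) fun i hi => by simp [hi]]
        apply hk G hG.exp
        intro i j
        by_cases hi : i < n
        · by_cases hj : j < n
          · simpa [hi, hj] using hcc i hi j hj
          · simp [hj]
        · simp [hi]
      · push Not at hcc
        obtain ⟨i, hi, j, hj, hij⟩ := hcc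
        have hu : ∀ u ∈ s.1, FreeGroup.lift g u = 1 := fun u hu =>
          eq_one_of_comm hF hG (hc' u hu i hi) (hc' u hu j hj) hij
        have h1 : FreeGroup.lift g s.2 = 1 := hs g hu
        rw [hdec, map_mul, lift_closure_eq_one s.1 g hu hs0, mul_one] at h1
        exact h1
  have h2 : FreeGroup.lift f (lam pw L k) = 1 := hH _ hlaw f
  rw [lift_lam_of_one hF f L k fun z hz => hf z.1 ((hLmem z.1 z.2).1 hz).1] at h2
  rw [hdec, map_mul, h2, lift_closure_eq_one s.1 f hf hs0, mul_one]

end Pool.Agent.Y907.PV
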